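import Mathlib

namespace Pool.Agent.Results.MP_adc81a_nt.Yes
open Polynomial

/-- `S(n,t)`: the binary digits of `n` read as coefficients of a polynomial in `t`. -/
noncomputable def S (n : ℕ) : ℤ[X] := Nat.ofDigits X (Nat.digits 2 n)

/-- The Hankel determinant `det [S(i+j,t)]`, `0 ≤ i,j < n`. -/
noncomputable def H (n : ℕ) : ℤ[X] := (Matrix.of fun i j : Fin n => S (i + j)).det

lemma S_rec (n : ℕ) : S n = C ((n % 2 : ℕ) : ℤ) + X * S (n / 2) := by
  rcases Nat.eq_zero_or_pos n with rfl | hn
  · simp [S, Nat.ofDigits]
  · rw [S, Nat.digits_def' one_lt_two hn, Nat.ofDigits, S, map_natCast]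

def ev (t : ℤ) : ℕ → ℕ → ℤ
  | 0, _ => 0
  | f + 1, n => ((n % 2 : ℕ) : ℤ) + t * ev t f (n / 2)

def dv (t : ℤ) : ℕ → ℕ → ℤ
  | 0, _ => 0
  | f + 1, n => ev t f (n / 2) + t * dv t f (n / 2)

lemma ev_eq (t : ℤ) (f : ℕ) : ∀ n, n < 2 ^ f →
    (S n).eval t = ev t f n ∧ (derivative (S n)).eval t = dv t f n := by
  induction f with
  | zero =>
    intro n hn
    have : n = 0 := by simpa using hn
    subst this; simp [S, ev, dv, Nat.ofDigits]
  | succ f ih =>
    intro n hn
    obtain ⟨h1, h2⟩ := ih (n / 2) (by rw [pow_succ] at hn; omega)
    rw [S_rec, ev, dv, ← h1, ← h2]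
    constructor
    · simp only [eval_add, eval_mul, eval_C, eval_X]
    · simp only [derivative_add, derivative_C, derivative_mul, derivative_X, eval_add, eval_mul,
        eval_X, eval_zero, eval_one]
      ring

lemma sq_dvd_det {n : ℕ} (A : Matrix (Fin n) (Fin n) ℤ[X]) (hA : ∀ i j, A i j = A j i)
    (v : Fin n → ℤ) (k : Fin n) (hk : v k = 1) (a : ℤ)
    (h1 : ∀ i, ∑ j, v j * (A i j).eval a = 0)
    (h2 : ∑ i, v i * ∑ j, v j * (derivative (A i j)).eval a = 0) :
    (X - C a) ^ 2 ∣ A.det := by
  have d1 : ∀ i, X - C a ∣ ∑ j, C (v j) • A i j := fun i => by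
    rw [dvd_iff_isRoot, IsRoot.def, eval_finsetSum, ← h1 i]
    simp
  choose w hw using d1
  have e1 := Matrix.det_updateCol_sum A k (fun j => C (v j))
  have e2 : (fun i => ∑ j, C (v j) • A i j) = (X - C a) • w := by
    funext i; rw [hw i]; simp
  rw [e2, Matrix.det_updateCol_smul, hk, C_1, one_smul] at e1
  set B := A.updateCol k w with hB
  have d2 : ∀ j, X - C a ∣ (∑ i, C (v i) • B i) j := fun j => by
    rw [dvd_iff_isRoot, IsRoot.def, Finset.sum_apply, eval_finsetSum]
    by_cases hj : j = k
    · rw [← h2]
      apply Finset.sum_congr rfl
      intro i _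
      have := congrArg (fun p => (derivative p).eval a) (hw i)
      simp only [derivative_sum, eval_finsetSum, smul_eq_mul, derivative_mul, derivative_C,
        zero_mul, zero_add, eval_mul, eval_C, derivative_sub, derivative_X, sub_zero, one_mul,
        eval_add, eval_sub, eval_X, sub_self, add_zero] at this
      rw [this, hj, hB]; simp
    · rw [← h1 j]
      apply Finset.sum_congr rfl
      intro i _
      rw [hB, hA j i]; simp [Matrix.updateCol_ne hj]
  choose w' hw' using d2
  have e3 := Matrix.det_updateRow_sum B k (fun j => C (v j))
  have e4 : (∑ i, C (v i) • B i) = (X - C a) • w' := by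
    funext j; rw [hw' j]; simp
  rw [e4, Matrix.det_updateRow_smul, hk, C_1, one_smul] at e3
  exact ⟨(B.updateRow k w').det, by rw [← e1, ← e3]; ring⟩

def vv (i : ℕ) : ℤ := [-3, 2, 1, 0, -1, 1, 1, 0, 0, 0, 0, 0, 0, 0, 0, 0, -3, 2, 1, 0, -1, 1, 1, 0,
  0, 0, 0, 0, 0, 0, 0, 0, 8, -5, -2, 0, 2, -2, -2, 0, 2, -1, 0, 0, 0, 0, 0, 0, -3, 2, 1, 0, -1, 1,
  1].getD i 0

lemma c1 : ∀ i < 55, ∑ j ∈ Finset.range 55, vv j * ev (-1) 7 (i + j) = 0 := by decide +kernel

lemma c2 : ∑ i ∈ Finset.range 55, vv i * ∑ j ∈ Finset.range 55, vv j * dv (-1) 7 (i + j) = 0 := by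
  decide +kernel

def BN : ℕ := 10175678900797925167819832017605707331640977263551154813005108046428941689351376492995098716100634054589619756021361680797004081450463440513277499785837483463421404722394135903967813183368655203819477009650674364646939340515247224601326925545702041929835721898489668175951684053585517420590080104657873752072330894983563940468063442826196837701829307625532900055913404265042296089285368851817169844404198609313199670262269084283219029161594121751086842197935364415390258480333754845207898030655876368105076367607679026942277525938746136537851451654395179903076486608992235846074073459396343882693325508509901356191634521240798164814065852557430889069986005732240232652186422778922890594746597503999041896589422355943726157608885945008469101331845535281951994624442571626327529167539592841932037377438455188908983848922897622599961327242897021732202801269412680951333782366145918567371775494296229425326749114381376843054676701162041914464309086885252131205710093942977635149674467353109410048411468430175246949974828568159148400323707579005297358670745849822740577078472833193585977018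481543231321387524351219551896684249741132938999237360165419750007196047545341187455325274668806026428697211776674226639433449126188278755485592342213875291643379050500034816786271258140556606444370385041722697560773181093189467559903442807805158944956786207913293236552483786572745612686136443822211204243063271632335136759816081953087657208320417737158519742079014629361572285253797564378676190083992859539568678213968910470140230731061016964340739712392391526802087122516297985968823252467217623215618103965025658763038106556232176784496154174756047388738309202646509225165336094765119966025512651673972050194735209909347685803429968860979423511620930360782004289185751194245782680828824612303666599009074830400696372895678412479778582036452766801542536015121042609129899751414983591924555291100240321782313285779034555513621323634990029044244041377475171620976654196664017843439714033527623845122795099053262746400895021805893513292088953258036725747369508296865097703944114392818766662322636225323786142482404672835016105190517383791455875408966335117395758296168136867655433151830940605734310183497224873679248195706228871163868569599589245268443240034192301662085113562219065991336696048446672502649307735896679451872837860973142006513569717663617489016902297516617419241736903609824171264577903631281828683689727951561058461261834488014380900879991457362353421130175880350738419278085230205539216413950820900768566220854264640621771845679527825181247914238870353122190817164840281571288083269596354065940577368809861027581292899693959183554894447382999097764846725645513475996502296920141130825299092706146532926858717436300491548459608097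

def bb (k j : ℕ) : ℕ := (BN >>> (3 * (55 * k + j))) % 8

def pc (n : ℕ) : ℕ := (ev 1 7 n).toNat

lemma c3 : ∀ i < 55, ∀ j < 55,
    (∑ k ∈ Finset.range 55, pc (i + k) * bb k j) % 5 = if i = j then 1 else 0 := by
  decide +kernel

lemma c4 : ∀ n < 110, (pc n : ℤ) = ev 1 7 n := by decide +kernel

lemma H_ne : H 55 ≠ 0 := by
  intro h
  let φ : ℤ[X] →+* ZMod 5 := (Int.castRingHom (ZMod 5)).comp (evalRingHom 1)
  have h1 := congrArg φ h
  rw [H, RingHom.map_det, map_zero] at h1
  have h2 : φ.mapMatrix (Matrix.of fun i j : Fin 55 => S (i + j)) *
      (Matrix.of fun k j : Fin 55 => ((bb k j : ℕ) : ZMod 5)) = 1 := by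
    ext i j
    have e : ∀ k : Fin 55, φ (S (i + k)) = ((pc (i + k) : ℕ) : ZMod 5) := fun k => by
      have := (ev_eq 1 7 (i + k) (by omega)).1
      rw [← c4 _ (by omega)] at this
      simp [φ, this]
    have e2 := congrArg (fun x : ℕ => (x : ZMod 5)) (c3 i i.2 j j.2)
    simp only [ZMod.natCast_mod, Nat.cast_sum, Nat.cast_mul] at e2
    rw [← Fin.sum_univ_eq_sum_range (fun k => ((pc (i + k) : ℕ) : ZMod 5) * (bb k j : ℕ))] at e2
    rw [Matrix.mul_apply, Matrix.one_apply]
    simp only [RingHom.mapMatrix_apply, Matrix.map_apply, Matrix.of_apply, e]
    rw [e2]; simp [Fin.ext_iff]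
  have h3 := congrArg Matrix.det h2
  rw [Matrix.det_mul, h1, zero_mul, Matrix.det_one] at h3
  exact absurd h3 (by decide)

theorem result : ∃ n : ℕ, 2 ≤ n ∧ H n ≠ 0 ∧ ∃ t₀ : ℂ, t₀ ≠ 0 ∧
    (∀ ζ : ℂ, (∃ m : ℕ, 1 ≤ m ∧ ζ ^ m = 1) → t₀ ≠ 2 * ζ) ∧
    (X - C t₀) ^ 2 ∣ (H n).map (Int.castRingHom ℂ) := by
  refine ⟨55, by norm_num, H_ne, -1, by norm_num, ?_, ?_⟩
  · rintro ζ ⟨m, hm, h⟩ e
    have h1 : ‖ζ‖ = 1 := Complex.norm_eq_one_of_pow_eq_one h (by omega)
    have h2 := congrArg norm e
    simp [h1] at h2
  · have := sq_dvd_det (Matrix.of fun i j : Fin 55 => S (i + j)) (fun i j => by simp [add_comm])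
      (fun i => vv i) 54 (by decide) (-1) (fun i => by
        rw [← c1 i i.2, ← Fin.sum_univ_eq_sum_range (fun j => vv j * ev (-1) 7 (i + j))]
        exact Finset.sum_congr rfl fun j _ => by
          rw [Matrix.of_apply, (ev_eq (-1) 7 (i + j) (by omega)).1]) (by
        rw [← c2, ← Fin.sum_univ_eq_sum_range
          (fun i => vv i * ∑ j ∈ Finset.range 55, vv j * dv (-1) 7 (i + j))]
        refine Finset.sum_congr rfl fun i _ => ?_
        rw [← Fin.sum_univ_eq_sum_range (fun j => vv j * dv (-1) 7 (i + j))]
        congr 1
        exact Finset.sum_congr rfl fun j _ => by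
          rw [Matrix.of_apply, (ev_eq (-1) 7 (i + j) (by omega)).2])
    have h2 := Polynomial.map_dvd (Int.castRingHom ℂ) this
    simpa [H] using h2

end Pool.Agent.Results.MP_adc81a_nt.Yes
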